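import Pool.Agent.Y144.DL.AbnThm

/-!
# Rationality of the central value of `A₀ / K` for all subfields `K` of a field `F`, from ABELIAN twists

`A₀ / ℚ` is an elliptic curve with real period `Ωp` and imaginary period `i Ωm`. `F / ℚ` is a finite Galois
extension with group `G` and complex conjugation `c`. `N` is a normal subgroup of odd order such that `c` is
central modulo `N` (`F^N` is totally real or CM and `F` has odd degree over it), and `Z` is any abelian normal
subgroup of `G`. Examples: `F` CM or totally real with any, also nonsolvable, group (`N = 1`, `Z = ⟨c⟩`);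
`F = ℚ(ζ_n, a^(1/n))`, `n` odd, `N = Z = Gal(F/ℚ(ζ_n))`. `M` is the family of Frobenius traces of `A₀`; the traces at
the primes ramified in `F` are set equal to zero, which changes the values by rational Euler factors. A term of
`LAt M Fr θ 1` is `L(s, A₀ ⊗ θ)`: a meromorphic function on `ℂ` with this Euler product, holomorphic and nonzero
at `1`. For `θ = perm ℚ H` it is `L(s, A₀ / K)`, `K = F^H`, and `i ^ r₂ Δ`, `Δ = |d_K| ^ (1/2)`, is the period of the
Artin motive `θ`.
-/

set_option autoImplicit false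

open Pool.Agent.Y144.DL

/-- Suppose (`AbelianTwists`) that for each subfield `k = F^V` of `F^Z` over which `F` is SOLVABLE and each
character `χ` of `Gal(F/k)`

* the function `L(s, A₀/k ⊗ χ)` of the ABELIAN twist has a meromorphic continuation which is holomorphic and
  nonzero at `1`;
* relative rationality: for characters of `Gal(F/k)` with the same signs at the real places of `k` the values at
  `1` have the quotient given by the Gauss sums (periods of the Artin motives), up to a factor in `E`,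

and that the period relation holds for `A₀` and, if `c ≠ 1`, for ONE odd Dirichlet twist. Then for EVERY subfield
`K = F^H` of `F`, with `r₁` real and `r₂` complex places, `L(s, A₀/K)` has a meromorphic continuation, and
`L(1, A₀/K) = q Ω(A₀/K)`, `Ω(A₀/K) = |d_K| ^ (1/2) Ωp ^ r₁ Im(Ωp conj(i Ωm)) ^ r₂`, with a nonzero rational
number `q`. -/
theorem Pool.Agent.Results.MP_90f827_nt.BaseChangeCurves.result
    {E : Type} [Field E] [Algebra ℚ E] [Algebra.IsAlgebraic ℚ E] {G : Type} [Group G] [Finite G]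
    (hE : HasEnoughRootsOfUnity E (Nat.card G)) (c : G) (N Z : Subgroup G) (hN : N.Normal)
    (hodd : Odd (Nat.card N)) (hcN : ∀ g : G, g * c * g⁻¹ * c⁻¹ ∈ N) (hcc : c * c = 1)
    (hZ : Z.Normal) (hZab : ∀ x ∈ Z, ∀ y ∈ Z, x * y = y * x)
    (M : FrobData ℚ) (Fr : Nat.Primes → G) (A : ArtinPeriods E G) (Ωp Ωm : ℝ)
    (h : AbelianTwists (fun H : Subgroup G => Group.IsSolvable H ∧ Z ≤ H) c (M.map E) Fr 1 A 1
      (fun _ => (Ωp : ℂ)) (fun _ => Complex.I * Ωm))
    (H : Subgroup G) (r₁ r₂ : ℕ) (hr₁ : Nat.card {x : G ⧸ H // c • x = x} = r₁)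
    (hr₂ : Nat.card (G ⧸ H) = r₁ + 2 * r₂) (Δ : ℝ)
    (hΔ : ∀ σ, A.δ (perm E H) σ = Complex.I ^ r₂ * Δ) :
    ∃ X : LAt M Fr (perm ℚ H) 1, ∃ q : ℚ, q ≠ 0 ∧ X.L (algebraMap ℚ ℂ) 1 =
      q * (Δ * Ωp ^ r₁ * ((((Ωp : ℂ) * (starRingEnd ℂ) (Complex.I * Ωm)).im : ℝ) : ℂ) ^ r₂) := by
  obtain ⟨X, q, hq, h2⟩ := main_Z (K := ℚ) hE hN hodd hcN hcc hZ hZab (cP := fun _ => (Ωp : ℂ))
    (cM := fun _ => Complex.I * Ωm) h (perm ℚ H) (isChar_perm H) (r₁ + r₂) r₂
    (by
      rw [perm_one, hr₂]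
      push_cast
      ring)
    (by
      show (Nat.card {x : G ⧸ H // c • x = x} : ℚ) = _
      rw [hr₁]
      push_cast
      ring)
    (fun _ => Complex.I ^ r₂ * Δ)
    (by
      rw [perm_map]
      exact funext hΔ)
  refine ⟨X, q, hq, ?_⟩
  have h3 := h2 (algebraMap ℚ ℂ)
  have h7 : X.value (algebraMap ℚ ℂ) = X.L (algebraMap ℚ ℂ) 1 := rfl
  rw [← h7]
  have h4 : ((Ωp : ℂ) * (starRingEnd ℂ) (Complex.I * Ωm)).im = -(Ωp * Ωm) := by
    simp
  have h5 : (Complex.I ^ r₂) * (Complex.I ^ r₂) = (-1) ^ r₂ := by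
    rw [← mul_pow, Complex.I_mul_I]
  rw [h4]
  push_cast
  simp only [Pi.mul_apply, Pi.pow_apply, pow_one, eq_ratCast] at h3
  rw [h3]
  have h6 : (-((Ωp : ℂ) * Ωm)) ^ r₂ = (-1) ^ r₂ * (Ωp ^ r₂ * Ωm ^ r₂) := by
    rw [neg_pow, mul_pow]
  rw [h6, ← h5, mul_pow, pow_add]
  ring
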