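import Pool.Agent.Y144.DL.Over7

/-!
# Exact rationality of `L(1, A) / Ω(A)` for base changes of elliptic curves over ANY number field to ALL extensions

`k₀ ≤ k` are ANY number fields in `ℂ`, `d = [k : k₀]`; `r₁ v` and `r₂ v` are the numbers of real and complex places of
`k` above the real place `v` of `k₀`, and `n₂`, `N₂` are the numbers of complex places of `k₀` and `k`. `F₁ / ℚ` is a
finite Galois extension in `ℂ` which contains `k` and which is obtained from the normal closure of `k` by adjoining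
square roots. `gal k₀ F₁ = Gal(F₁/k₀)`, `Fr p ∈ Gal(F₁/k₀)` is a Frobenius element at the prime `p` of `k₀`, and `c v` is
complex conjugation at the real place `v`. `M` is (the family of rational Frobenius traces of) an elliptic curve `A₀`
over `k₀`; the primes ramified in `F₁` are left out of `M.P`, which changes the values by rational Euler factors.
`Ωp v` and `i Ωm v` are the real and the imaginary period of `A₀` at `v`, and `Pc` is the product of the numbers `P_w`
for the complex places `w` of `k₀`. `E` is an algebraic extension of `ℚ` which contains the roots of unity of order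
`|Gal(F₁/k₀)|`. For a function `θ` on `Gal(F₁/k₀)` a term of `LOver M Fr θ 1` is `L(s, A₀ ⊗ θ)`: a meromorphic function on
`ℂ` with this Euler product, holomorphic and nonzero at `1` (one for each embedding of the coefficients). For the
permutation character `perm = Ind_k 1` it is the function `L(s, A)` of `A = A₀ / k`. `A.δ θ` is the period of the Artin
motive `Res_{k₀/ℚ} θ`: `δ(1) = i ^ n₂ |d_{k₀}| ^ (1/2)` and `δ(Ind_k 1) = i ^ N₂ |d_k| ^ (1/2)`, up to factors in `E`
which come from the choice of bases; so `q = ∏_v Ωp_v · Pc / i ^ n₂` and `ρ_v = i Ωm_v / Ωp_v` are the normalised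
periods of `A₀`.
-/

set_option autoImplicit false

open Pool.Agent.Y144.DL

attribute [local instance high] IntermediateField.algebra'

/-- Suppose (`TwistsOver`) that for each intermediate field `k' = F₁^H` of `F₁ / k₀` over which `F₁` is SOLVABLE and
each character `χ` of `Gal(F₁/k')`
* the function `L(s, A₀/k' ⊗ χ)` of the ABELIAN twist has a meromorphic continuation which is holomorphic and
  nonzero at `1`;
* relative rationality: for characters of `Gal(F₁/k')` with the same signs at the real places of `k'` the values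
  at `1` have the quotient of the periods `δ`, up to a factor in `E`,
and that, up to `E`, the period relation holds for `A₀` and, for each real place `v` of `k₀`, for ONE twist `A₀ ⊗ ψ_v`
by a linear character which is odd at `v` and even at the other real places. Then for `A = A₀ / k` the function
`L(s, A)` has a meromorphic continuation, and `L(1, A)` is a nonzero RATIONAL multiple of
`Ω(A) = |d_k| ^ (1/2) ∏_v Ωp_v ^ (r₁ v) (Ωp_v Ωm_v) ^ (r₂ v) · Pc ^ d`. -/
theorem Pool.Agent.Results.MP_90f827_nt.EveryNumberField.result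
    (k₀ k : IntermediateField ℚ ℂ) [FiniteDimensional ℚ k₀] [FiniteDimensional ℚ k]
    (hk₀ : k₀ ≤ k) (d n₂ N₂ : ℕ) (r₁ r₂ : RealPlace k₀ → ℕ)
    (hd : d * Module.finrank ℚ k₀ = Module.finrank ℚ k)
    (hn₂ : Nat.card (RealPlace k₀) + 2 * n₂ = Module.finrank ℚ k₀)
    (hN₂ : Nat.card (RealPlace k) + 2 * N₂ = Module.finrank ℚ k)
    (hr₁ : ∀ v, Nat.card {w : RealPlace k // ∀ x : k₀, w.1 ⟨x, hk₀ x.2⟩ = v.1 x} = r₁ v)
    (hr₂ : ∀ v, r₁ v + 2 * r₂ v = d) :
    ∃ (F₁ : IntermediateField ℚ ℂ) (_ : FiniteDimensional ℚ F₁) (_ : Normal ℚ F₁) (h : k ≤ F₁),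
      (∀ g ∈ gal (IntermediateField.normalClosure ℚ k ℂ) F₁, g * g = 1) ∧
      ∀ (E : Type) [Field E] [Algebra ℚ E] [Algebra.IsAlgebraic ℚ E]
        (_ : HasEnoughRootsOfUnity E (Nat.card (gal k₀ F₁))) (c : RealPlace k₀ → gal k₀ F₁)
        (_ : ∀ v, IsConjAt (hk₀.trans h) v (c v).1) (M : EulerData ℚ) (Fr : M.P → gal k₀ F₁)
        (A : ArtinPeriods E (gal k₀ F₁)) (Ωp Ωm : RealPlace k₀ → ℝ) (_ : ∀ v, Ωp v ≠ 0) (Pc : ℝ)
        (_ : TwistsOver (fun H : Subgroup (gal k₀ F₁) => Group.IsSolvable H) c (M.map E) Fr 1 A 1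
            (fun _ => (∏ v, (Ωp v : ℂ)) * Pc / Complex.I ^ n₂)
            (fun v _ => Complex.I * Ωm v / Ωp v)) (Δ : ℝ)
        (_ : Sim (A.δ (perm E ((gal k F₁).subgroupOf (gal k₀ F₁)))) fun _ => Complex.I ^ N₂ * Δ),
        ∃ X : LOver M Fr (perm ℚ ((gal k F₁).subgroupOf (gal k₀ F₁))) 1, ∃ t : ℚ, t ≠ 0 ∧
          X.L (algebraMap ℚ ℂ) 1 =
            t * (Δ * (∏ v, (Ωp v : ℂ) ^ r₁ v * ((Ωp v : ℂ) * Ωm v) ^ r₂ v) * Pc ^ d) :=
  main_elliptic k₀ k hk₀ d n₂ N₂ r₁ r₂ hd hn₂ hN₂ hr₁ hr₂
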