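import Pool.Agent.Y691.ST.CenDefs
import Pool.Agent.Y691.ST.PermThin

/-!
# Rationality of central values of elliptic curves over number fields: reduction to a thin family
-/

set_option autoImplicit false

open Pool.Agent.Y691.ST

namespace Pool.Agent.Results.MP_90f827_nt.SplitOrLocal

/-- **Rationality of the leading coefficients at the centre of an elliptic curve over all number
fields.** Let `A` be an elliptic curve over `ℚ`, `M` a finite Galois extension of `ℚ` (the fixed field of `N`)
and `V` a finite set of places of `ℚ`. Assume that the leading coefficient of `L(s, A / K)` at the centre is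
a rational multiple of the product of `Ω(A / K)` and the regulator for the number fields `K` for which, for
some prime `p`, the Galois group of `K M / K` is an extension of a `p`-group by a cyclic group, and either
all its decomposition groups at the places above the places in `V` are `p`-groups, or it is contained in
the decomposition group of a place of `M` above a place in `V`. Then this is true for `A` over all number
fields. -/
theorem result {E : Central} (hE : IsCentral E) {V : Finset (AbsoluteValue Qbar ℝ)} (hV : ArePlaces V)
    {N : Subgroup GalQ} (hNn : N.Normal) (hN : IsOpen (N : Set GalQ))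
    (thin : ∀ (p : ℕ) (U : Subgroup GalQ), p.Prime → IsOpen (U : Set GalQ) → HyperMod p N U →
      SmallOrLocal p V N U → E.Holds U)
    {U : Subgroup GalQ} (hU : IsOpen (U : Set GalQ)) : E.Holds U := by
  classical
  let R : Subgroup ℝˣ := (Units.map (algebraMap ℚ ℝ : ℚ →* ℝ)).range
  let u : Subgroup GalQ → ℝˣ := fun W =>
    Units.mk0 (E.lead W / E.per W) (div_ne_zero (hE.lead_ne W) (hE.per_ne W))
  have hR : ∀ x : ℝˣ, x ∈ R ↔ ∃ q : ℚ, q ≠ 0 ∧ (x : ℝ) = q := by
    intro x
    constructor
    · rintro ⟨y, rfl⟩
      exact ⟨y, y.ne_zero, rfl⟩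
    · rintro ⟨q, hq, h⟩
      exact ⟨Units.mk0 q hq, Units.ext h.symm⟩
  let B : Subgroup GalQ → Additive (ℝˣ ⧸ R) := fun W => Additive.ofMul (QuotientGroup.mk' R (u W))
  have hzero : ∀ W, B W = 0 ↔ E.Holds W := by
    intro W
    have h1 : B W = 0 ↔ QuotientGroup.mk' R (u W) = 1 := Iff.rfl
    rw [h1, ← MonoidHom.mem_ker, QuotientGroup.ker_mk', hR]
    unfold Central.Holds
    refine exists_congr fun q => and_congr_right fun _ => ?_
    show E.lead W / E.per W = q ↔ _
    rw [div_eq_iff (hE.per_ne W)]
  have hsum : ∀ l : List (Subgroup GalQ), (l.map B).sum =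
      Additive.ofMul (QuotientGroup.mk' R (l.map u).prod) := by
    intro l
    induction l with
    | nil => rfl
    | cons a l ih =>
      rw [List.map_cons, List.sum_cons, ih, List.map_cons, List.prod_cons, map_mul]
      rfl
  have hprod : ∀ l : List (Subgroup GalQ), (((l.map u).prod : ℝˣ) : ℝ) =
      (l.map fun W => E.lead W / E.per W).prod := by
    intro l
    induction l with
    | nil => rfl
    | cons a l ih =>
      rw [List.map_cons, List.prod_cons, Units.val_mul, ih, List.map_cons, List.prod_cons]
      rfl
  have hB : Brauer B := by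
    intro l l' h h' hs
    obtain ⟨q, hq, hq1⟩ := hE.brauer l l' ⟨h, h', hs⟩
    rw [hsum, hsum]
    congr 1
    rw [← mul_inv_eq_one, ← map_inv, ← map_mul, ← MonoidHom.mem_ker, QuotientGroup.ker_mk', hR]
    refine ⟨q, hq, ?_⟩
    rw [Units.val_mul, Units.val_inv_eq_inv_val, hprod, hprod, hq1, mul_assoc, mul_inv_cancel₀,
      mul_one]
    rw [← hprod]
    exact Units.ne_zero _
  exact (hzero U).mp (thin_all hB hV hNn hN
    (fun p W hp hW h1 h2 => (hzero W).mpr (thin p W hp hW h1 h2)) hU)

end Pool.Agent.Results.MP_90f827_nt.SplitOrLocal
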